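import Pool.Agent.Helper69.UX.StB

/-!
# Project UX (MP_e12aa9_pr): module LBS, labels with seeds
-/

set_option autoImplicit false

namespace Pool.Agent.Helper18.UX

open Finset Filter Pool.Agent.Helper82.CN Pool.Agent.Helper11.PV Pool.Agent.Helper69.VX
  Pool.Agent.Helper69.UX

/-- A disjoint cover is the family of the fibres of a function. -/
theorem exists_fib {V L : Type} [Fintype V] [DecidableEq L] (g : L → Finset V)
    (hc : ∀ v, ∃ i, v ∈ g i) (hd : ∀ i j, i ≠ j → Disjoint (g i) (g j)) :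
    ∃ f : V → L, ∀ i, fib f i = g i := by
  choose f hf using hc
  refine ⟨f, fun i => ?_⟩
  ext v
  unfold fib
  simp only [mem_filter, mem_univ, true_and]
  constructor
  · intro h
    rw [← h]
    exact hf v
  · intro h
    by_contra hne
    exact (Finset.disjoint_left.1 (hd (f v) i hne) (hf v)) h

theorem mem_pt {V : Type} [Fintype V] {P : Finset (Finset V)} :
    P ∈ Pt V ↔ (∀ A ∈ P, A.Nonempty) ∧ (∀ A ∈ P, ∀ B ∈ P, A ≠ B → Disjoint A B) ∧
      ∀ v : V, ∃ A ∈ P, v ∈ A := by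
  unfold Pt
  simp only [mem_filter, mem_univ, true_and]

/-- A class with a big block. -/
theorem ex_big {V : Type} [DecidableEq V] {R : ℕ} {P Q : Finset (Finset V)} {C : Finset V}
    (h : C ∈ bigS R P Q) : ∃ B ∈ Q, R < (C ∩ B).card := by
  unfold bigS at h
  rw [mem_filter] at h
  have h2 := h.2
  unfold mxb at h2
  rw [Finset.lt_sup_iff] at h2
  exact h2

/-- The labelled maps with a given image. -/
theorem lab {V : Type} [Fintype V] [DecidableEq V] (A R l : ℕ) (P I Q : Finset (Finset V))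
    (hPd : ∀ C ∈ P, ∀ C' ∈ P, C ≠ C' → Disjoint C C') (hI : I ⊆ P) (hAR : A ≤ 2 * R)
    (hQne : ∀ B ∈ Q, B.Nonempty) (hQd : ∀ B ∈ Q, ∀ B' ∈ Q, B ≠ B' → Disjoint B B')
    (hQcov : ∀ v : V, ∃ B ∈ Q, v ∈ B) (hQA : ∀ B ∈ Q, B.card ≤ A)
    (hb : ∀ C : {C // C ∈ I}, ∃ B ∈ Q, R < (C.1 ∩ B).card) (hQc : Q.card = I.card + l) :
    ∃ fs : Equiv.Perm (Fin l) → (V → {C // C ∈ I} ⊕ Fin l), Function.Injective fs ∧ ∀ σ,
      (∀ C : {C // C ∈ I}, R < (fib (fs σ) (Sum.inl C) ∩ C.1).card) ∧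
        (∀ i : Fin l, (fib (fs σ) (Sum.inr i)).Nonempty) ∧
        (∀ B, (∃ x, fib (fs σ) x = B) ↔ B ∈ Q) := by
  choose β hβQ hβR using hb
  have hβi : Function.Injective β := by
    intro C C' h
    by_contra hne
    have h1 : C.1 ≠ C'.1 := fun h2 => hne (Subtype.ext h2)
    have h2 := hPd C.1 (hI C.2) C'.1 (hI C'.2) h1
    have h3 : Disjoint (C.1 ∩ β C) (C'.1 ∩ β C) :=
      Finset.disjoint_of_subset_left inter_subset_left
        (Finset.disjoint_of_subset_right inter_subset_left h2)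
    have h4 : ((C.1 ∩ β C) ∪ (C'.1 ∩ β C)).card ≤ (β C).card :=
      card_le_card (union_subset inter_subset_right inter_subset_right)
    rw [card_union_of_disjoint h3] at h4
    have h5 := hβR C
    have h6 := hβR C'
    rw [← h] at h6
    have h7 := hQA (β C) (hβQ C)
    omega
  have hZQ : univ.image β ⊆ Q := by
    intro B hB
    rw [mem_image] at hB
    obtain ⟨C, -, rfl⟩ := hB
    exact hβQ C
  have hZc : (univ.image β).card = I.card := by
    rw [card_image_of_injective _ hβi, card_univ, Fintype.card_coe]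
  have hrc : (Q \ univ.image β).card = l := by
    rw [card_sdiff_of_subset hZQ, hZc, hQc]
    omega
  obtain ⟨e⟩ : Nonempty (Fin l ≃ {B // B ∈ Q \ univ.image β}) :=
    ⟨(Finset.equivFinOfCardEq hrc).symm⟩
  -- the labelled classes
  obtain ⟨g, hgl, hgr⟩ : ∃ g : Equiv.Perm (Fin l) → ({C // C ∈ I} ⊕ Fin l) → Finset V,
      (∀ σ C, g σ (Sum.inl C) = β C) ∧ ∀ σ i, g σ (Sum.inr i) = (e (σ i)).1 :=
    ⟨fun σ => Sum.elim β (fun i => (e (σ i)).1), fun _ _ => rfl, fun _ _ => rfl⟩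
  have hgi : ∀ σ, Function.Injective (g σ) := by
    intro σ x y hxy
    rcases x with C | i <;> rcases y with C' | j
    · rw [hgl, hgl] at hxy
      rw [hβi hxy]
    · exfalso
      rw [hgl, hgr] at hxy
      have h1 := (e (σ j)).2
      rw [← hxy, Finset.mem_sdiff] at h1
      exact h1.2 (mem_image_of_mem _ (mem_univ _))
    · exfalso
      rw [hgl, hgr] at hxy
      have h1 := (e (σ i)).2
      rw [hxy, Finset.mem_sdiff] at h1
      exact h1.2 (mem_image_of_mem _ (mem_univ _))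
    · rw [hgr, hgr] at hxy
      rw [σ.injective (e.injective (Subtype.ext hxy))]
  have hgQ : ∀ σ x, g σ x ∈ Q := by
    intro σ x
    rcases x with C | i
    · rw [hgl]
      exact hβQ C
    · rw [hgr]
      exact (Finset.mem_sdiff.1 (e (σ i)).2).1
  have hgs : ∀ σ, ∀ B ∈ Q, ∃ x, g σ x = B := by
    intro σ B hB
    by_cases hBZ : B ∈ univ.image β
    · rw [mem_image] at hBZ
      obtain ⟨C, -, hC⟩ := hBZ
      exact ⟨Sum.inl C, by rw [hgl]; exact hC⟩
    · refine ⟨Sum.inr (σ.symm (e.symm ⟨B, Finset.mem_sdiff.2 ⟨hB, hBZ⟩⟩)), ?_⟩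
      rw [hgr, Equiv.apply_symm_apply, Equiv.apply_symm_apply]
  have hex : ∀ σ, ∃ f : V → {C // C ∈ I} ⊕ Fin l, ∀ x, fib f x = g σ x := by
    intro σ
    refine exists_fib (g σ) ?_ ?_
    · intro v
      obtain ⟨B, hB, hv⟩ := hQcov v
      obtain ⟨x, hx⟩ := hgs σ B hB
      exact ⟨x, by rw [hx]; exact hv⟩
    · intro x y hxy
      exact hQd _ (hgQ σ x) _ (hgQ σ y) (fun h => hxy (hgi σ h))
  choose fs hfs using hex
  refine ⟨fs, ?_, fun σ => ⟨?_, ?_, ?_⟩⟩
  · intro σ τ h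
    ext i
    have h1 : g σ (Sum.inr i) = g τ (Sum.inr i) := by
      rw [← hfs, ← hfs, h]
    rw [hgr, hgr] at h1
    rw [e.injective (Subtype.ext h1)]
  · intro C
    rw [hfs, hgl, inter_comm]
    exact hβR C
  · intro i
    rw [hfs]
    exact hQne _ (hgQ σ _)
  · intro B
    constructor
    · rintro ⟨x, rfl⟩
      rw [hfs]
      exact hgQ σ x
    · intro hB
      obtain ⟨x, hx⟩ := hgs σ B hB
      exact ⟨x, by rw [hfs]; exact hx⟩

/-- Sums over fibres. -/
theorem sum_lab {X Y : Type} [DecidableEq Y] (F : Finset X) (S : Finset Y) (φ : X → Y)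
    (Φ : Y → ℝ) (c : ℕ) (hΦ : ∀ y, 0 ≤ Φ y) (key : ∀ y ∈ S, c ≤ (F.filter fun x => φ x = y).card) :
    (c : ℝ) * ∑ y ∈ S, Φ y ≤ ∑ x ∈ F, Φ (φ x) := by
  calc (c : ℝ) * ∑ y ∈ S, Φ y = ∑ y ∈ S, (c : ℝ) * Φ y := mul_sum _ _ _
    _ ≤ ∑ y ∈ S, ∑ x ∈ F.filter (fun x => φ x = y), Φ (φ x) := by
        refine sum_le_sum fun y hy => ?_
        have h1 : ∑ x ∈ F.filter (fun x => φ x = y), Φ (φ x) =
            ((F.filter (fun x => φ x = y)).card : ℝ) * Φ y := by
          rw [← nsmul_eq_mul, ← sum_const]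
          refine sum_congr rfl fun x hx => ?_
          rw [(mem_filter.1 hx).2]
        rw [h1]
        exact mul_le_mul_of_nonneg_right (by exact_mod_cast key y hy) (hΦ y)
    _ = ∑ y ∈ S, ∑ x ∈ (F.filter (fun x => φ x ∈ S)).filter (fun x => φ x = y), Φ (φ x) := by
        refine sum_congr rfl fun y hy => sum_congr ?_ fun _ _ => rfl
        ext x
        simp only [mem_filter]
        constructor
        · rintro ⟨h1, h2⟩
          exact ⟨⟨h1, by rw [h2]; exact hy⟩, h2⟩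
        · rintro ⟨⟨h1, _⟩, h2⟩
          exact ⟨h1, h2⟩
    _ = ∑ x ∈ F.filter (fun x => φ x ∈ S), Φ (φ x) :=
        sum_fiberwise_of_maps_to (fun x hx => (mem_filter.1 hx).2) _
    _ ≤ ∑ x ∈ F, Φ (φ x) :=
        sum_le_sum_of_subset_of_nonneg (filter_subset _ _) (fun _ _ _ => hΦ _)

theorem hLBS : StLBS := by
  intro n A R l P I Φ hP hI hA hAR hΦ
  have hP1 := mem_pt.1 hP
  refine sum_lab _ _ (fun f : Fin n → {C // C ∈ I} ⊕ Fin l => univ.image (fib f)) Φ _ hΦ ?_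
  intro Q hQ
  rw [mem_filter] at hQ
  obtain ⟨hQP, hQA, hQb, hQc⟩ := hQ
  have hQ1 := mem_pt.1 hQP
  obtain ⟨fs, hinj, hfs⟩ := lab A R l P I Q hP1.2.1 hI hAR hQ1.1 hQ1.2.1 hQ1.2.2 hQA (by
    intro C
    refine ex_big (P := P) ?_
    rw [hQb]
    exact C.2) hQc
  have himg : ∀ σ, univ.image (fib (fs σ)) = Q := by
    intro σ
    ext B
    rw [mem_image, ← (hfs σ).2.2 B]
    simp only [mem_univ, true_and]
  have hl : l.factorial = (univ : Finset (Equiv.Perm (Fin l))).card := by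
    rw [card_univ, Fintype.card_perm, Fintype.card_fin]
  rw [hl]
  refine Finset.card_le_card_of_injOn fs ?_ hinj.injOn
  intro σ _
  rw [mem_coe, mem_filter, mem_filter]
  refine ⟨⟨mem_univ _, (hfs σ).1, (hfs σ).2.1, ?_, ?_⟩, himg σ⟩
  · rw [himg]
    exact hQP
  · rw [himg]
    exact hQb

end Pool.Agent.Helper18.UX
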